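import Pool.Agent.H73.TP.Two
import Pool.Agent.H73.TP.Fek

/-!
# MP_602de4_co: all minors of order at most three of the r-th order Eulerian triangles

For every `r ≥ 1` the triangle `E (n+1, k+1) = (k+2) E (n, k+1) + (r n - k) E (n, k)` has all its
minors of order at most three (arbitrary rows and arbitrary columns) nonnegative.
-/

set_option autoImplicit false

open Polynomial Pool.Agent.H73.TP

namespace Pool.Agent.Results.MP_602de4_co.OrderThree

theorem coeff_rowP (r : ℕ) (E : ℕ → ℕ → ℤ) (h00 : E 0 0 = 1) (h0 : ∀ k, E 0 (k + 1) = 0)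
    (hc : ∀ n, E (n + 1) 0 = E n 0)
    (hs : ∀ n k : ℕ, E (n + 1) (k + 1) =
      ((k : ℤ) + 2) * E n (k + 1) + ((r : ℤ) * (n : ℤ) - (k : ℤ)) * E n k) :
    ∀ n k, ((E (n + 1) k : ℤ) : ℝ) = (rowP r n).coeff k := by
  intro n
  induction n with
  | zero =>
    intro k
    rcases k with _ | k
    · rw [hc, h00]; simp [rowP]
    · rw [hs, h0]
      rcases k with _ | k
      · simp [rowP, coeff_one]
      · rw [h0]; simp [rowP, coeff_one]
  | succ n ih =>
    intro k
    rcases k with _ | k
    · rw [hc, ih, rowP, opA_coeff_zero]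
    · rw [hs, rowP, opA_coeff_succ, ← ih, ← ih]
      push_cast; ring

/-- **Order three.** For every `r ≥ 1` every minor of order at most three of the `r`-th order
Eulerian triangle, on increasing rows and increasing columns, is nonnegative. -/
theorem result :
    ∀ r : ℕ, 1 ≤ r →
      ∀ E : ℕ → ℕ → ℤ,
        E 0 0 = 1 →
        (∀ k : ℕ, E 0 (k + 1) = 0) →
        (∀ n : ℕ, E (n + 1) 0 = E n 0) →
        (∀ n k : ℕ, E (n + 1) (k + 1) =
            ((k : ℤ) + 2) * E n (k + 1) + ((r : ℤ) * (n : ℤ) - (k : ℤ)) * E n k) →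
        ∀ m : ℕ, m ≤ 3 → ∀ f g : Fin m → ℕ, StrictMono f → StrictMono g →
          0 ≤ Matrix.det (Matrix.of fun i j => E (f i) (g j)) := by
  intro r hr E h00 h0 hc hs m hm f g hf hg
  have hE := coeff_rowP r E h00 h0 hc hs
  set a : ℕ → ℕ → ℝ := fun n k => (rowP r n).coeff k with ha
  have hEa : ∀ n k, ((E n k : ℤ) : ℝ) = a (n - 1) k := by
    intro n k
    rcases n with _ | n
    · rcases k with _ | k
      · have : a 0 0 = 1 := by simp [ha, rowP]
        rw [h00, this]; simp
      · have : a 0 (k + 1) = 0 := by simp [ha, rowP, coeff_one]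
        rw [h0, this]; simp
    · rw [hE]; simp [ha]
  have hp : ∀ n k, k ≤ n → 0 < a n k := fun n k hk => rowP_pos r hr n k hk
  have hz : ∀ n k, n < k → a n k = 0 := fun n k hk => rowP_zero r hr n k hk
  have h2 : ∀ n k, k ≤ n → 0 < m2 a n (n + 1) k (k + 1) := by
    intro n k hk
    have := rowP_two r hr n k hk
    simpa [w2, m2, ha] using this
  have h3 : ∀ n k, 0 ≤ m3 a n (n + 1) (n + 2) k (k + 1) (k + 2) := by
    intro n k
    have := rowP_three r hr n k
    simpa [w3, m3, ha] using this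
  have hnn : ∀ n k, 0 ≤ a n k := by
    intro n k
    by_cases h : k ≤ n
    · exact (hp n k h).le
    · rw [hz n k (by omega)]
  have key : 0 ≤ ((Matrix.det (Matrix.of fun i j => E (f i) (g j)) : ℤ) : ℝ) := by
    interval_cases m
    · simp
    · rw [Matrix.det_fin_one]
      simp only [Matrix.of_apply]
      rw [hEa]; exact hnn _ _
    · rw [Matrix.det_fin_two]
      simp only [Matrix.of_apply]
      push_cast
      rw [hEa, hEa, hEa, hEa]
      have hf01 : f 0 < f 1 := hf (by decide)
      have hg01 : g 0 < g 1 := hg (by decide)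
      have e : a (f 0 - 1) (g 0) * a (f 1 - 1) (g 1) - a (f 0 - 1) (g 1) * a (f 1 - 1) (g 0)
          = m2 a (f 0 - 1) (f 1 - 1) (g 0) (g 1) := rfl
      rw [e]
      rcases Nat.lt_or_ge (f 0 - 1) (f 1 - 1) with h | h
      · exact m2_nonneg hp hz h2 h hg01
      · have : f 0 - 1 = f 1 - 1 := by omega
        rw [this]; unfold m2
        have : a (f 1 - 1) (g 0) * a (f 1 - 1) (g 1) - a (f 1 - 1) (g 1) * a (f 1 - 1) (g 0) = 0 := by
          ring
        rw [this]
    · rw [Matrix.det_fin_three]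
      simp only [Matrix.of_apply]
      push_cast
      simp only [hEa]
      have hf01 : f 0 < f 1 := hf (by decide)
      have hf12 : f 1 < f 2 := hf (by decide)
      have hg01 : g 0 < g 1 := hg (by decide)
      have hg12 : g 1 < g 2 := hg (by decide)
      have e : a (f 0 - 1) (g 0) * a (f 1 - 1) (g 1) * a (f 2 - 1) (g 2)
          - a (f 0 - 1) (g 0) * a (f 1 - 1) (g 2) * a (f 2 - 1) (g 1)
          - a (f 0 - 1) (g 1) * a (f 1 - 1) (g 0) * a (f 2 - 1) (g 2)
          + a (f 0 - 1) (g 1) * a (f 1 - 1) (g 2) * a (f 2 - 1) (g 0)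
          + a (f 0 - 1) (g 2) * a (f 1 - 1) (g 0) * a (f 2 - 1) (g 1)
          - a (f 0 - 1) (g 2) * a (f 1 - 1) (g 1) * a (f 2 - 1) (g 0)
          = m3 a (f 0 - 1) (f 1 - 1) (f 2 - 1) (g 0) (g 1) (g 2) := by
        unfold m3; ring
      rw [e]
      rcases Nat.lt_or_ge (f 0 - 1) (f 1 - 1) with h | h
      · exact m3_nonneg hp hz h2 h3 (f 2 - 1 - (f 0 - 1)) _ _ _ _ _ _ h (by omega) hg01 hg12 le_rfl
      · have : f 0 - 1 = f 1 - 1 := by omega
        rw [this]
        have : m3 a (f 1 - 1) (f 1 - 1) (f 2 - 1) (g 0) (g 1) (g 2) = 0 := by unfold m3; ring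
        rw [this]
  exact_mod_cast key

end Pool.Agent.Results.MP_602de4_co.OrderThree
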